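import Pool.Agent.Helper68_CPT.ALLB
import Pool.Agent.Helper98_BSH.HIL
import Pool.Agent.Helper27_BSH.HBD
import Pool.Agent.Helper80_BSH.MAP
import Pool.Agent.Helper10_BSH.LIM
import Pool.Agent.Helper5_BSH.BST
import Pool.Agent.Helper44_CPT.NUM
import Pool.Agent.Helper27_CPT.CHB
import Pool.Agent.Helper10_CPT.HBF
import Pool.Agent.Helper25_CPT.AUB
import Pool.Agent.Helper77_CPT.SPC
import Pool.Agent.Helper62_CPT.SBL
import Pool.Agent.Helper23_CPT.GRD
import Pool.Agent.Helper65_CPT.CAP
import Pool.Agent.Helper16_CPT.ESS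
import Pool.Agent.Helper85_CPT.DEG
import Pool.Agent.Helper95_CPT.QDT
import Pool.Agent.Helper69_CPT.CND
import Pool.Agent.Helper81_CPT.HIT
import Pool.Agent.Helper97_CPT.CNT
import Pool.Agent.Helper26_CPT.SIZ
import Pool.Agent.Helper2_CPT.REN
import Pool.Agent.Helper67_CPT.CHL
import Pool.Agent.Helper95_CPT.LFT
import Pool.Agent.Helper34_CPT.BRI
import Pool.Agent.Helper21_CPT.BAU
import Pool.Agent.Helper44_CPT.BSL
import Pool.Agent.Helper72_CPT.BRK
import Pool.Agent.Helper41_CPT.ESD
import Pool.Agent.Helper39_CPT.BES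
import Pool.Agent.Helper39_CPT.CAL
import Pool.Agent.Helper5_CPT.HTL
import Pool.Agent.Helper27_CPT.PTS
import Pool.Agent.Helper10_CPT.NMB
import Pool.Agent.Helper25_CPT.HSL
import Pool.Agent.Helper92_CPT.SZC
import Pool.Agent.Helper65_CPT.GPM
import Pool.Agent.Helper42_CPT.CHG

set_option autoImplicit false

/-! Assembly of the squad CPT: the capacity theorem and its form for limits. -/

namespace Pool.Agent.CPT.H68

open Pool.Agent.CPT

theorem allAub : AubStmt :=
  H25.aub Pool.Agent.BSH.H5.bst Pool.Agent.BSH.H10.lim H44.num H27.chb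
    (H10.hbf (Pool.Agent.BSH.H27.hbd Pool.Agent.BSH.H98.hil) Pool.Agent.BSH.H80.map)

theorem allSbl : SblStmt := H62.sbl Pool.Agent.BSH.H80.map

theorem allGrd : GrdStmt := H23.grd H77.spc allStb

/-- The capacity theorem. -/
theorem allCap : CapStmt := H65.cap allGrd allSbl allAub

theorem allCnd : CndStmt := H69.cnd (H95.qdt H85.deg)

theorem allHit : HitStmt := H81.hit H16.ess allCnd allSbl allCap

theorem allBsl : BslStmt := H44.bsl allSbl

theorem allChl : ChlStmt := H67.chl H95.lft

/-- The capacity theorem for limits. -/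
theorem allCal : CalStmt := H39.cal allGrd allBsl (H21.bau allAub H34.bri)

theorem allHtl : HtlStmt := H5.htl (H39.bes H16.ess H72.brk H41.esd) allCnd allBsl allCal

theorem allNmb : NmbStmt := H10.nmb H27.ptsRow

theorem allHsl : HslStmt := H25.hsl allHtl allNmb

theorem allSzc : SzcStmt := H92.szc H26.siz allNmb

end Pool.Agent.CPT.H68
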