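import Pool.Agent.Helper77_CPT.LIP
import Pool.Agent.Helper21_CPT.LDV
import Pool.Agent.Helper91_CPT.CHA
import Pool.Agent.Helper34_CPT.LAU
import Pool.Agent.Helper86_CPT.DUA
import Pool.Agent.Helper48_CPT.DEX
import Pool.Agent.Helper6_CPT.PJZ
import Pool.Agent.Helper88_CPT.PUX
import Pool.Agent.Helper81_CPT.ITG
import Pool.Agent.Helper25_CPT.GLU
import Pool.Agent.Helper95_CPT.FRB
import Pool.Agent.Helper72_CPT.TRD
import Pool.Agent.Helper86_CPT.ALI
import Pool.Agent.Helper69_CPT.BAK
import Pool.Agent.Helper68_CPT.STB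

set_option autoImplicit false

/-! Assembly of part B of the squad CPT. -/

namespace Pool.Agent.CPT.H68

open Pool.Agent.CPT

theorem itg : ItgStmt := H81.itg (H34.lau H21.ldv H91.cha) H48.dex (H88.pux H6.pjz)

theorem allStb : StbStmt :=
  stb H77.lip H86.dua itg H25.glu H95.frb H72.trd H86.ali H69.bak

end Pool.Agent.CPT.H68
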