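import Mathlib
import Pool.Agent.CPT.StmtsE

set_option autoImplicit false

/-! Row PRL of the squad CPT: the curve hits products of limits and their factors. -/

namespace Pool.Agent.CPT.H68

open MvPolynomial Pool.Agent.BSH Pool.Agent.CPT

theorem prl (hHsm : HslStmt) (hCrv : CrvStmt) : PrlStmt := by
  intro E _ _ n s L P hL hL0 hP
  obtain ⟨hc1, hc2, hc3⟩ := hCrv
  set H := prs n s with hH
  let Φ : MvPolynomial (Fin n) E →ₐ[E] Polynomial E :=
    aeval fun i : Fin n => crv H (Polynomial.X : Polynomial E) i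
  have hev : ∀ (F : MvPolynomial (Fin n) E) (τ : E),
      (Φ F).eval τ = eval (fun i : Fin n => crv H τ i) F := by
    intro F τ
    have h1 : (Polynomial.evalRingHom τ).comp (Φ : MvPolynomial (Fin n) E →+* Polynomial E) =
        eval (fun i : Fin n => crv H τ i) := by
      refine MvPolynomial.ringHom_ext ?_ ?_
      · intro r
        rw [RingHom.comp_apply]
        change Polynomial.eval τ (Φ (C r)) = _
        rw [show Φ (C r) = Polynomial.C r from aeval_C _ _, Polynomial.eval_C, eval_C]
      · intro i
        rw [RingHom.comp_apply]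
        change Polynomial.eval τ (Φ (X i)) = _
        rw [show Φ (X i) = crv H (Polynomial.X : Polynomial E) i from aeval_X _ _, eval_X]
        have h2 := hc2 (Polynomial E) E (Polynomial.evalRingHom τ) (2 * s + 1) H Polynomial.X i
        rw [Polynomial.coe_evalRingHom, Polynomial.eval_X] at h2
        exact h2
    exact congrArg (fun g : MvPolynomial (Fin n) E →+* E => g F) h1
  have hF : ∀ F ∈ L, Φ F ≠ 0 := by
    intro F hF h0
    have hFne : F ≠ 0 := fun h => hL0 (List.prod_eq_zero (h ▸ hF))
    obtain ⟨j, hj⟩ := hHsm E n s (H.length - 1).factorial F (Nat.factorial_pos _) hFne (hL F hF)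
    apply hj
    have h1 := hev F ((j : ℕ) : E)
    rw [h0, Polynomial.eval_zero] at h1
    rw [h1]
    congr 2
    funext i
    exact (hc1 E (2 * s + 1) H j i).symm
  have hprod : Φ L.prod ≠ 0 := by
    rw [map_list_prod]
    intro h0
    rw [List.prod_eq_zero_iff, List.mem_map] at h0
    obtain ⟨F, hFL, hF0⟩ := h0
    exact hF F hFL hF0
  have hΦP : Φ P ≠ 0 := by
    intro h0
    obtain ⟨Q, hQ⟩ := hP
    apply hprod
    rw [hQ, map_mul, h0, zero_mul]
  have hdeg : (Φ P).natDegree ≤ P.totalDegree * (H.length - 1) :=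
    MvPolynomial.aeval_natDegree_le P le_rfl _ fun i => hc3 E (2 * s + 1) H i
  by_contra hcon
  push Not at hcon
  apply hΦP
  refine Polynomial.eq_zero_of_natDegree_lt_card_of_eval_eq_zero (Φ P)
    (f := fun τ : Fin (P.totalDegree * (H.length - 1) + 1) => (((τ : ℕ) : E))) ?_ ?_ ?_
  · intro a b hab
    exact Fin.ext (Nat.cast_injective hab)
  · intro τ
    rw [hev]
    exact hcon τ (Nat.lt_succ_iff.mp τ.2)
  · rw [Fintype.card_fin]
    omega

end Pool.Agent.CPT.H68
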