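import Mathlib
import Pool.Agent.CPT.StmtsB

set_option autoImplicit false

/-! Row STB of the squad CPT: assembly of step (B). -/

namespace Pool.Agent.CPT.H68

open Polynomial Pool.Agent.CPT

theorem eval_al {E : Type} [Field E] {m : ℕ} (F : MvPolynomial (Fin m) E) :
    MvPolynomial.eval₂Hom (algebraMap E (KK m E)) (fun i => al (MvPolynomial.X i)) F = al F := by
  have h : MvPolynomial.eval₂Hom (algebraMap E (KK m E)) (fun i => al (MvPolynomial.X i)) =
      algebraMap (MvPolynomial (Fin m) E) (KK m E) := by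
    refine MvPolynomial.ringHom_ext ?_ ?_
    · intro r
      rw [MvPolynomial.eval₂Hom_C, IsScalarTower.algebraMap_apply E (MvPolynomial (Fin m) E) (KK m E)]
      rfl
    · intro i
      rw [MvPolynomial.eval₂Hom_X']
      rfl
  rw [h]
  rfl

theorem al_ne {E : Type} [Field E] {m : ℕ} (F : MvPolynomial (Fin m) E) (hF : F ≠ 0) :
    al F ≠ 0 := by
  intro h
  exact hF ((IsFractionRing.injective (MvPolynomial (Fin m) E) (KK m E)) (by
    rw [map_zero]
    exact h))

theorem stb (hLip : LipStmt) (hDua : DuaStmt) (hItg : ItgStmt) (hGlu : GluStmt) (hFrb : FrbStmt)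
    (hTrd : TrdStmt) (hAli : AliStmt) (hBak : BakStmt) : StbStmt := by
  intro E _ _ n N a F θ hF ha hθ hdvd hI
  rcases Nat.eq_zero_or_pos N with rfl | hN
  · rw [Nat.mul_zero]
    exact ⟨Fin.elim0, linearIndependent_empty_type⟩
  obtain ⟨m, hm⟩ := hI
  rw [hLip] at hm
  obtain ⟨ι, hι1, hι2, hι3⟩ := hAli E (KK (n + 1) E) n N (al (MvPolynomial.X 0))
    (fun i => L F i.succ) m hN hm
  have hφ : Function.Injective (eval₂RingHom ι (al (MvPolynomial.X 0) : KK (n + 1) E)) := by
    rw [injective_iff_map_eq_zero]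
    intro p hp
    have h1 := hι3 (fun _ => p) (by
      rw [coe_eval₂RingHom] at hp
      simp [hp])
    exact congrFun h1 ⟨0, hN⟩
  letI A1 : Algebra (KK n E)[X] (KK (n + 1) E) :=
    (eval₂RingHom ι (al (MvPolynomial.X 0) : KK (n + 1) E)).toAlgebra
  letI A2 : Algebra (FractionRing (KK n E)[X]) (KK (n + 1) E) :=
    (IsFractionRing.lift hφ).toAlgebra
  haveI T : IsScalarTower (KK n E)[X] (FractionRing (KK n E)[X]) (KK (n + 1) E) :=
    IsScalarTower.of_algebraMap_eq (fun x => (IsFractionRing.lift_algebraMap hφ x).symm)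
  have hmap : ∀ p : (KK n E)[X], algebraMap (KK n E)[X] (KK (n + 1) E) p =
      p.eval₂ ι (al (MvPolynomial.X 0)) := fun p => rfl
  have hmC : ∀ q : KK n E, algebraMap (KK n E)[X] (KK (n + 1) E) (C q) = ι q := by
    intro q
    rw [hmap, eval₂_C]
  have hmX : algebraMap (KK n E)[X] (KK (n + 1) E) X = al (MvPolynomial.X 0) := by
    rw [hmap, eval₂_X]
  have hmE : ∀ q : E, algebraMap (KK n E)[X] (KK (n + 1) E) (C (algebraMap E (KK n E) q)) =
      algebraMap E (KK (n + 1) E) q := by
    intro q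
    rw [hmC, hι1]
  haveI hfd : FiniteDimensional (FractionRing (KK n E)[X]) (KK (n + 1) E) := hTrd E n hmE
  have hFne := al_ne F hF
  -- the local elements
  have hloc : ∀ j : Fin a, ∃ (f : (KK n E)[X]) (y : KK (n + 1) E),
      f.eval (algebraMap E (KK n E) (θ j)) ≠ 0 ∧ IsIntegral (KK n E)[X] y ∧
      algebraMap (KK n E)[X] (KK (n + 1) E) f = algebraMap (KK n E)[X] (KK (n + 1) E)
        (X - C (algebraMap E (KK n E) (θ j))) * y * L F 0 := by
    intro j
    have h1 := hItg E (KK n E) (KK (n + 1) E) n (fun i => al (MvPolynomial.X i)) (hDua E n)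
      (algebraMap E (KK (n + 1) E)) (fun q => (hmE q).symm) F
      (fun i => al (MvPolynomial.X i)) hmX.symm (by rw [eval_al]; exact hFne) (by
        intro i
        rw [eval_al, eval_al, hmC, hι2]
        unfold L
        rw [div_mul_cancel₀ _ hFne]) (θ j) (hdvd j j.2)
    rw [eval_al, eval_al] at h1
    exact h1
  obtain ⟨g, f, y, hg, hfg, hy, hfy⟩ := hGlu (KK n E) (KK (n + 1) E) a
    (fun j : Fin a => algebraMap E (KK n E) (θ j)) (by
      intro i j hij
      exact Fin.ext (hθ ((algebraMap E (KK n E)).injective hij))) (L F 0) ha hloc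
  have hu : L F 0 ≠ 0 := by
    intro h0
    rw [h0, mul_zero] at hfy
    have hf0 : f = 0 := hφ (by rw [map_zero]; exact hfy)
    rw [hf0, isCoprime_zero_left] at hfg
    have := natDegree_eq_zero_of_isUnit hfg
    omega
  haveI : CharZero (KK n E) := charZero_of_injective_algebraMap (algebraMap E (KK n E)).injective
  obtain ⟨e, he⟩ := hFrb (KK n E) (KK (n + 1) E) N a m (by
    intro p hp
    exact hι3 p hp) g f hg hfg (L F 0) y hu hy hfy
  refine ⟨e, ?_⟩
  rw [hLip]
  have h2 := hBak E (KK (n + 1) E) n (a * N) ι hι1 (L F 0) e (by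
    intro p hp
    have hιC : (algebraMap (KK n E)[X] (KK (n + 1) E)).comp C = ι := RingHom.ext hmC
    refine he p ?_
    rw [hιC]
    exact hp)
  have h3 : (Fin.cons (L F 0) (fun j => ι (al (MvPolynomial.X j))) : Fin (n + 1) → KK (n + 1) E) =
      L F := by
    funext i
    refine Fin.cases ?_ ?_ i
    · rw [Fin.cons_zero]
    · intro j
      rw [Fin.cons_succ, hι2]
  rw [h3] at h2
  exact h2

end Pool.Agent.CPT.H68
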